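import Mathlib
import Pool.Agent.H64.HBFinal

/-!
# Fixed-point-free uniformly Hölder nonexpansive self-maps of unit balls

The closed unit ball of every infinite-dimensional real normed space has property (H): for every
exponent `α ∈ (0,1)` (and every constant `lam > 0`, in particular `lam = 1`) there is a
fixed-point-free self-map of the ball, all of whose iterates are `α`-Hölder with constant `lam`,
and whose minimal displacement is zero. This settles all cases (a), (b), (c), (d) of the question.

Outline of the proof. Pairs `(r, T)` with `r ∘ r = r`, `T ∘ T = r`, `r ∘ T = T ∘ r = T` and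
`T x ≠ x` are modified step by step: a hub `v ↦ ± g(v)` for a retraction `g` onto a shell of a
hyperplane, then in each of infinitely many disjoint regions a flap in a new direction, an
explicit filling of the hole in the flap, a radial contraction of the centre, and recursion inside
the contracted centre.
-/

open Metric

universe u

namespace Pool.Agent.Results.MP_93c42a_an.AllSpaces

theorem result (X : Type u) [NormedAddCommGroup X] [NormedSpace ℝ X]
    (h : ¬ FiniteDimensional ℝ X) (α : ℝ) (hα0 : 0 < α) (hα1 : α < 1)
    (lam : ℝ) (hlam : 0 < lam) :
    ∃ T : closedBall (0 : X) 1 → closedBall (0 : X) 1,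
      (∀ n : ℕ, 1 ≤ n → ∀ x y : closedBall (0 : X) 1,
        ‖((T^[n] x : closedBall (0 : X) 1) : X) - (T^[n] y : closedBall (0 : X) 1)‖ ≤
          lam * ‖(x : X) - (y : X)‖ ^ α) ∧
      (∀ x : closedBall (0 : X) 1, T x ≠ x) ∧
      (⨅ x : closedBall (0 : X) 1, ‖(x : X) - (T x : X)‖) = 0 :=
  Pool.Agent.H64.HB.strong_all X h α hα0 hα1 lam hlam

end Pool.Agent.Results.MP_93c42a_an.AllSpaces
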